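import Pool.Agent.H19.AutoCont

/-! A closed transformation monoid with automatic continuity but without automatic
homeomorphicity. -/

namespace Pool.Agent.Results.MP_fafee5_lc.QOne

open Pool.Agent.H19.AutoCont Filter Topology

/-- The chain `ω + 1` under `min`, acting on itself (`0` codes the top element). -/
def s (n : ℕ) : Function.End ℕ := fun x => match x with
  | 0 => n + 1
  | k + 1 => min k n + 1

/-- Truncation at `n`. -/
def e (n : ℕ) : Function.End ℕ := fun x => min x n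

lemma s_mul (n m : ℕ) : s n * s m = s (min m n) := by
  funext x
  rcases x with _ | k
  · rfl
  · show min (min k m) n + 1 = min k (min m n) + 1
    rw [min_assoc]

lemma e_mul (n m : ℕ) : e n * e m = e (min m n) := by
  funext x
  show min (min x m) n = min x (min m n)
  rw [min_assoc]

/-- The discrete copy. -/
def S : Submonoid (Function.End ℕ) where
  carrier := {f | f = 1 ∨ ∃ n, f = s n}
  one_mem' := Or.inl rfl
  mul_mem' := by
    rintro f g (rfl | ⟨n, rfl⟩) (rfl | ⟨m, rfl⟩)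
    · exact Or.inl (mul_one _)
    · exact Or.inr ⟨m, one_mul _⟩
    · exact Or.inr ⟨n, mul_one _⟩
    · exact Or.inr ⟨_, s_mul n m⟩

/-- The compact copy. -/
def T : Submonoid (Function.End ℕ) where
  carrier := {f | f = 1 ∨ ∃ n, f = e n}
  one_mem' := Or.inl rfl
  mul_mem' := by
    rintro f g (rfl | ⟨n, rfl⟩) (rfl | ⟨m, rfl⟩)
    · exact Or.inl (mul_one _)
    · exact Or.inr ⟨m, one_mul _⟩
    · exact Or.inr ⟨n, mul_one _⟩
    · exact Or.inr ⟨_, e_mul n m⟩

lemma S_ext {f g : Function.End ℕ} (hf : f ∈ S) (hg : g ∈ S) (h : f 0 = g 0) : f = g := by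
  rcases hf with rfl | ⟨n, rfl⟩ <;> rcases hg with rfl | ⟨m, rfl⟩
  · rfl
  · exact absurd h (Nat.succ_ne_zero m).symm
  · exact absurd h (Nat.succ_ne_zero n)
  · rw [Nat.succ_injective h]

lemma S_closed : IsClosedMonoid S := by
  rw [isClosedMonoid_iff, isClosed_iff_nhds]
  intro f hf
  have h0 := nhds_eval f 0
  obtain ⟨g, hg0, hg⟩ := hf _ h0
  have : f = g := by
    funext x
    have h1 := nhds_eval f x
    obtain ⟨k, ⟨hk0, hkx⟩, hk⟩ := hf _ (inter_mem h0 h1)
    have := S_ext hk hg (hk0.trans hg0.symm)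
    rw [← this]; exact hkx.symm
  rw [this]; exact hg

lemma e_ev (x : ℕ) : ∀ᶠ n in atTop, e n x = x :=
  eventually_atTop.2 ⟨x, fun _ hn => min_eq_left hn⟩

lemma T_closed : IsClosedMonoid T := by
  have h2 := (tendsto_fun (u := e) (f := id)).2 e_ev |>.isCompact_insert_range.isClosed
  have e1 : {f : ℕ → ℕ | (show Function.End ℕ from f) ∈ T} = 
      insert id (Set.range (α := ℕ → ℕ) e) := by
    ext f
    constructor
    · rintro (rfl | ⟨n, rfl⟩)
      · exact Or.inl rfl
      · exact Or.inr ⟨n, rfl⟩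
    · rintro (rfl | ⟨n, rfl⟩)
      · exact Or.inl rfl
      · exact Or.inr ⟨n, rfl⟩
  rw [isClosedMonoid_iff, e1]; exact h2

/-- The algebraic isomorphism. -/
def φ : S →ₙ* T where
  toFun f := ⟨fun x => f.1 (x + 1) - 1, by
    obtain ⟨f, rfl | ⟨n, rfl⟩⟩ := f
    · exact Or.inl rfl
    · exact Or.inr ⟨n, rfl⟩⟩
  map_mul' := by
    rintro f ⟨g, rfl | ⟨n, rfl⟩⟩
    · rfl
    · rfl

lemma φ_bij : Function.Bijective φ := by
  constructor
  · rintro ⟨f, rfl | ⟨n, rfl⟩⟩ ⟨g, rfl | ⟨m, rfl⟩⟩ h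
    · rfl
    · have : m + 1 = min (m + 1) m := congrFun (congrArg Subtype.val h) (m + 1)
      omega
    · have : min (n + 1) n = n + 1 := congrFun (congrArg Subtype.val h) (n + 1)
      omega
    · have : min (n + m) n = min (n + m) m := congrFun (congrArg Subtype.val h) (n + m)
      have : n = m := by omega
      subst this; rfl
  · rintro ⟨f, rfl | ⟨n, rfl⟩⟩
    · exact ⟨1, rfl⟩
    · exact ⟨⟨s n, Or.inr ⟨n, rfl⟩⟩, rfl⟩

theorem result : ∃ S : Submonoid (Function.End ℕ),
    IsClosedMonoid S ∧ AutoContinuity S ∧ ¬ AutoHomeomorphicity S := by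
  refine ⟨S, S_closed, ?_, ?_⟩
  · intro T' _ ψ
    letI := pw S
    letI := pw T'
    rw [continuous_iff_continuousAt]
    intro f
    have h1 : ∀ᶠ g in 𝓝 f, g.1 0 = f.1 0 := tendsto_pw.1 tendsto_id 0
    refine tendsto_const_nhds.congr' (h1.mono fun g hg => ?_)
    rw [Subtype.ext (S_ext g.2 f.2 hg)]
  · intro h
    let ψ : S ≃* T := MulEquiv.ofBijective φ φ_bij
    have h2 := (h T T_closed ψ).2
    letI := pw S
    letI := pw T
    have h3 : Tendsto (fun n => ψ ⟨s n, Or.inr ⟨n, rfl⟩⟩) atTop (𝓝 (ψ 1)) :=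
      tendsto_pw.2 e_ev
    have h4 := (h2.tendsto _).comp h3
    simp only [Function.comp_def, MulEquiv.symm_apply_apply] at h4
    obtain ⟨n, hn⟩ := (tendsto_pw.1 h4 0).exists
    exact Nat.succ_ne_zero n hn

end Pool.Agent.Results.MP_fafee5_lc.QOne
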