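import Pool.Agent.H19.AutoCont

/-! For oligomorphic closed transformation monoids, automatic continuity implies automatic
homeomorphicity. -/

namespace Pool.Agent.Results.MP_fafee5_lc.QTwo

open Pool.Agent.H19.AutoCont Filter Topology

lemma mul_app {S : Submonoid (Function.End ℕ)} (f g : S) (x : ℕ) : (f * g).1 x = f.1 (g.1 x) := rfl

lemma unit_inj {S : Submonoid (Function.End ℕ)} (g : Sˣ) {x y : ℕ}
    (h : (g : S).1 x = (g : S).1 y) : x = y := by
  have := congrArg ((g⁻¹ : Sˣ) : S).1 h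
  rwa [← mul_app, ← mul_app, Units.inv_mul] at this

lemma exists_lim {S : Submonoid (Function.End ℕ)} (hS : IsClosedMonoid S) (u : ℕ → S)
    (hu : ∀ x j, x ≤ j → (u (j + 1)).1 x = (u j).1 x) :
    ∃ f : S, ∀ x, ∀ᶠ j in atTop, (u j).1 x = f.1 x := by
  have h1 : ∀ x, ∀ᶠ j in atTop, (u j).1 x = (u x).1 x := by
    intro x
    refine eventually_atTop.2 ⟨x, fun j hj => ?_⟩
    induction j, hj using Nat.le_induction with
    | base => rfl
    | succ j hj ih => rw [hu x j hj, ih]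
  refine ⟨⟨fun x => (u x).1 x, ?_⟩, h1⟩
  exact (isClosedMonoid_iff.1 hS).mem_of_tendsto
    ((tendsto_fun (u := fun j => (u j).1) (f := fun x => (u x).1 x)).2 h1)
    (Eventually.of_forall fun j => (u j).2)

/-- Compactness of `(S × S) / Sˣ`. -/
lemma compact {S : Submonoid (Function.End ℕ)} (hS : IsClosedMonoid S) (ho : Oligomorphic S)
    (e : ℕ → S) : ∃ (n : ℕ → ℕ) (g : ℕ → Sˣ) (g' h : S), (∀ j, j ≤ n j) ∧
      (∀ x, ∀ᶠ j in atTop, (g j : S).1 x = g'.1 x) ∧
      (∀ x, ∀ᶠ j in atTop, ((g j : S) * e (n j)).1 x = h.1 x) := by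
  classical
  let t : ℕ → ℕ → ℕ := fun m i => if i % 2 = 0 then i / 2 else (e m).1 (i / 2)
  have hA : ∀ k : ℕ, ∃ r : Fin (2 * k + 2) → ℕ, ∀ᶠ m in (hyperfilter ℕ : Filter ℕ),
      ∃ g : Sˣ, ∀ i : Fin (2 * k + 2), t m i = (g : S).1 (r i) := by
    intro k
    obtain ⟨R, hR⟩ := ho (2 * k + 2) (by omega)
    have : ∀ᶠ m in (hyperfilter ℕ : Filter ℕ), ∃ r ∈ (R : Set (Fin (2 * k + 2) → ℕ)),
        ∃ g : Sˣ, ∀ i : Fin (2 * k + 2), t m i = (g : S).1 (r i) :=
      Eventually.of_forall fun m => hR fun i => t m i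
    obtain ⟨r, -, hr⟩ := (Ultrafilter.eventually_exists_mem_iff R.finite_toSet).1 this
    exact ⟨r, hr⟩
  choose r hr using hA
  have hn : ∀ j : ℕ, ∃ m, j ≤ m ∧ ∀ k ∈ Finset.range (j + 1),
      ∃ g : Sˣ, ∀ i : Fin (2 * k + 2), t m i = (g : S).1 (r k i) := by
    intro j
    have h1 : ∀ᶠ m in (hyperfilter ℕ : Filter ℕ), j ≤ m := by
      apply hyperfilter_le_cofinite
      rw [Nat.cofinite_eq_atTop]
      exact eventually_ge_atTop j
    exact (h1.and ((eventually_all_finset _).2 fun k _ => hr k)).exists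
  choose n hn1 hn2 using hn
  have hu : ∀ j : ℕ, ∃ u : Sˣ, ∀ i < 2 * j + 2, (u : S).1 (t (n (j + 1)) i) = t (n j) i := by
    intro j
    obtain ⟨a, ha⟩ := hn2 j j (by simp)
    obtain ⟨b, hb⟩ := hn2 (j + 1) j (by simp)
    refine ⟨a * b⁻¹, fun i hi => ?_⟩
    rw [ha ⟨i, hi⟩, hb ⟨i, hi⟩, ← mul_app, ← Units.val_mul, inv_mul_cancel_right]
  choose u hu using hu
  let g : ℕ → Sˣ := fun j => Nat.rec 1 (fun j g => g * u j) j
  have hg : ∀ j, g (j + 1) = g j * u j := fun j => rfl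
  obtain ⟨g', hg'⟩ := exists_lim hS (fun j => (g j).val) (by
    intro x j hx
    have h1 := hu j (2 * x) (by omega)
    simp only [t, Nat.mul_mod_right, if_true] at h1
    rw [show 2 * x / 2 = x by omega] at h1
    rw [hg, Units.val_mul, mul_app, h1])
  obtain ⟨h, hh⟩ := exists_lim hS (fun j => (g j).val * e (n j)) (by
    intro x j hx
    have h1 := hu j (2 * x + 1) (by omega)
    simp only [t, show ¬ ((2 * x + 1) % 2 = 0) by omega, if_false] at h1
    rw [show (2 * x + 1) / 2 = x by omega] at h1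
    rw [hg, Units.val_mul, mul_app, mul_app, mul_app, h1])
  exact ⟨n, g, g', h, hn1, hg', hh⟩

theorem result (S : Submonoid (Function.End ℕ)) (hS : IsClosedMonoid S) (ho : Oligomorphic S)
    (hc : AutoContinuity S) : AutoHomeomorphicity S := by
  intro T hT φ
  have hφ : @Continuous S T (pw S) (pw T) φ := hc T hT φ.toMulHom
  refine ⟨hφ, ?_⟩
  letI := pw S
  letI := pw T
  rw [continuous_iff_continuousAt]
  intro y
  obtain ⟨f, rfl⟩ := φ.surjective y
  refine tendsto_pw.2 fun a => ?_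
  rw [MulEquiv.symm_apply_apply]
  by_contra hcon
  have h1 : ∀ k : ℕ, ∃ e : S, (∀ b ∈ Finset.range k, (φ e).1 b = (φ f).1 b) ∧ e.1 a ≠ f.1 a := by
    intro k
    have h2 : ∀ᶠ z in 𝓝 (φ f), ∀ b ∈ Finset.range k, z.1 b = (φ f).1 b :=
      (eventually_all_finset _).2 fun b _ => tendsto_pw.1 tendsto_id b
    obtain ⟨z, hz1, hz2⟩ := ((not_eventually.1 hcon).and_eventually h2).exists
    exact ⟨φ.symm z, by rwa [MulEquiv.apply_symm_apply], hz1⟩
  choose e he1 he2 using h1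
  obtain ⟨n, g, g', h, hn, hg, hh⟩ := compact hS ho e
  have hg2 := tendsto_pw.1 ((hφ.tendsto g').comp (tendsto_pw.2 hg))
  have hh2 := tendsto_pw.1 ((hφ.tendsto h).comp (tendsto_pw.2 hh))
  have key : h = g' * f := by
    apply φ.injective
    apply Subtype.ext
    funext b
    obtain ⟨j, ⟨h3, h4⟩, h5⟩ :=
      (((hh2 b).and (hg2 ((φ f).1 b))).and (eventually_gt_atTop b)).exists
    simp only [Function.comp_apply] at h3 h4
    rw [← h3, map_mul, map_mul, mul_app, mul_app, ← h4,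
      he1 (n j) b (Finset.mem_range.2 (lt_of_lt_of_le h5 (hn j)))]
  obtain ⟨j, h3, h4⟩ := ((hh a).and (hg (f.1 a))).exists
  rw [key, mul_app, mul_app, ← h4] at h3
  exact he2 _ (unit_inj _ h3)

end Pool.Agent.Results.MP_fafee5_lc.QTwo
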